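import Pool.Agent.Y715.CT.Hec

/-!
# The central value for all products of cubic symbols
-/

set_option autoImplicit false
set_option linter.unusedSectionVars false

open Filter
open scoped Classical Topology PeriodPair

namespace Pool.Agent.Y715.CT.AN1b

open Pool.Agent.Y692.QS (Ei w nr toC)
open Pool.Agent.Y703.CT
open Pool.Agent.W192.HK Pool.Agent.TH936.CM Pool.Agent.TH936.PU
open Pool.Agent.W192.CM (nu)
open Pool.Agent.Y715.Dist Pool.Agent.Y715.Idn Pool.Agent.Y696
open Pool.Agent.Y715.T.Rs (eq0)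
open Pool.Agent.Y715.T.Lat (kap)
open Pool.Agent.Y703.CT.Ana (ej eo_j ej_u ej_ncop ej_prim)
open Pool.Agent.Y715.CT.Hec

variable {J : Type} [Fintype J] {π : J → Ei} {e : J → ZMod 3} {j : Fin 3}

/-- the vanishing for the wrong exponents -/
lemma SS_zero (h : Dt π e) (hj : om ^ (2 * (j : ℕ)) * XX π e omr = 1) {i : Fin 3} (hi : i ≠ j)
    (δ : ℝ) : SS (fun α : eis => ej i α * XX π e α) δ = 0 := by
  have hu : IsUnit omr := (unit_list _).2 (by simp)
  have h3 := om_cube
  have hn : Complex.normSq om = 1 := by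
    have := (isUnit_iff' omr).1 hu
    rwa [omr_coe] at this
  set a : eisˣ := hu.unit with ha
  have ha' : (a : eis) = omr := rfl
  have h1 : SS (fun α : eis => ej i α * XX π e α) δ =
      (om ^ (2 * (i : ℕ)) * XX π e omr) * SS (fun α : eis => ej i α * XX π e α) δ := by
    unfold SS
    rw [← tsum_mul_left, ← (Units.mulLeft a).tsum_eq]
    refine tsum_congr fun α => ?_
    show ej i (omr * α) * XX π e (omr * α) * fd δ ((omr * α : eis) : ℂ) =
      om ^ (2 * (i : ℕ)) * XX π e omr * (ej i α * XX π e α * fd δ (α : ℂ))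
    rw [X_mul h, (eo_j i).mul, ej_u i hu]
    have e1 : ((omr * α : eis) : ℂ) = om * α := rfl
    rw [e1, fd_mul, hn, mul_one, omr_coe, pow_succ]
    have h0 := om_ne
    field_simp
  have h2 : om ^ (2 * (i : ℕ)) * XX π e omr ≠ 1 := by
    intro h4
    have hX : XX π e omr ≠ 0 := right_ne_zero_of_mul (by rw [h4]; exact one_ne_zero)
    have h5 : om ^ (2 * (i : ℕ)) = om ^ (2 * (j : ℕ)) :=
      mul_right_cancel₀ hX (by rw [h4, hj])
    have key : ∀ m n : ℕ, m < n → n < 3 → om ^ (2 * m) ≠ om ^ (2 * n) := by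
      intro m n hmn hn3 h6
      have hm : m = 0 ∧ n = 1 ∨ m = 0 ∧ n = 2 ∨ m = 1 ∧ n = 2 := by omega
      rcases hm with ⟨rfl, rfl⟩ | ⟨rfl, rfl⟩ | ⟨rfl, rfl⟩
      · apply om2_ne_one
        linear_combination -h6
      · apply om_ne_one
        linear_combination -h6 - om * h3
      · apply om2_ne_one
        linear_combination (-om) * h6 + (-om ^ 2) * h3 + h3
    rcases lt_trichotomy (i : ℕ) j with h6 | h6 | h6
    · exact key _ _ h6 j.2 h5
    · exact hi (Fin.ext h6)
    · exact key _ _ h6 i.2 h5.symm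
  have h4 : (om ^ (2 * (i : ℕ)) * XX π e omr - 1) *
      SS (fun α : eis => ej i α * XX π e α) δ = 0 := by linear_combination -h1
  exact (mul_eq_zero.1 h4).resolve_left (sub_ne_zero.2 h2)

/-- the functions in the sense of the library -/
lemma Xo_X (h : Dt π e) [Nonempty J] [Fintype (eis ⧸ (sp (cP π) : Ideal eis))] :
    Xo (cP π) (XX π e) := by
  have hfin := Pool.Agent.Y715.T.LF.fin_quot
  refine ⟨fun x y => X_per h, X_mul h, fun x hx => ?_, fun x => ?_, ?_⟩
  · obtain ⟨i⟩ := (inferInstance : Nonempty J)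
    by_contra h1
    have h2 := (X_ne_iff h).1 h1 i
    unfold cP at hx
    have h4 : x ∈ (sp (eq0 (π i)) : Ideal eis) :=
      cc_mem (π := fun i => eq0 (π i)) (Finset.mem_univ i) hx
    exact h2 ((mem_iff _ _).1 h4)
  · by_cases h1 : XX π e x = 0
    · rw [h1, norm_zero]
      exact zero_le_one
    · exact (Complex.norm_eq_one_of_pow_eq_one (X_cube h ((X_ne_iff h).1 h1))
        (by norm_num)).le
  · have h1 := Sm_prod hfin (Xc_fm h).ne (Xc_fm h).cop (Xc_fm h).per Finset.univ
    have h2 : Sm (cP π) (XX π e) = 0 := by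
      have e1 : Sm (cP π) (XX π e) = Sm (cc (fun i => eq0 (π i)) Finset.univ)
        (fun x => ∏ i ∈ Finset.univ, Xc π e i x) := rfl
      rw [e1, h1]
      obtain ⟨i⟩ := (inferInstance : Nonempty J)
      exact Finset.prod_eq_zero (Finset.mem_univ i) ((Xc_fm h).sum i)
    rwa [Sm_eq] at h2

lemma conj_w (a : ZMod 3) : (starRingEnd ℂ) (toC w ^ (-a).val) = toC w ^ a.val := by
  have h1 : toC w ^ (-a).val * toC w ^ a.val = 1 := by
    rw [← toC_w_add, neg_add_cancel, ZMod.val_zero, pow_zero]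
  have h2 : (toC w ^ (-a).val) ^ 3 = 1 := by
    rw [← pow_mul, mul_comm, pow_mul, Pool.Agent.Y715.T.Fin.toC_w_cube, one_pow]
  rw [Pool.Agent.Y715.T.Fin.norm_root (by norm_num) h2]
  exact inv_eq_of_mul_eq_one_right h1

/-- the coefficients -/
lemma conj_X (h : Dt π e) (α : Ei) : (starRingEnd ℂ) (XX π e (eq0 α)) = chD π e α := by
  unfold chD
  by_cases h1 : ∃ i, π i ∣ α
  · rw [if_pos h1]
    obtain ⟨i, hi⟩ := h1
    have h2 : XX π e (eq0 α) = 0 := by
      by_contra h3
      exact (X_ne_iff h).1 h3 i (by rwa [RingEquiv.symm_apply_apply])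
    rw [h2, map_zero]
  · rw [if_neg h1]
    push Not at h1
    have h2 : ∀ i, Xc π e i (eq0 α) = toC w ^ (-(e i * Pool.Agent.Y715.T.Rec.cs (π i) α)).val := by
      intro i
      rw [Xc_of (by rw [RingEquiv.symm_apply_apply]; exact h1 i), RingEquiv.symm_apply_apply]
    have h3 : ∀ S : Finset J, ∏ i ∈ S, toC w ^ (e i * Pool.Agent.Y715.T.Rec.cs (π i) α).val =
        toC w ^ (∑ i ∈ S, e i * Pool.Agent.Y715.T.Rec.cs (π i) α).val := by
      intro S
      induction S using Finset.induction_on with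
      | empty => rw [Finset.prod_empty, Finset.sum_empty, ZMod.val_zero, pow_zero]
      | insert i S hi ih => rw [Finset.prod_insert hi, Finset.sum_insert hi, toC_w_add, ih]
    unfold XX XT
    rw [map_prod, ← h3]
    refine Finset.prod_congr rfl fun i _ => ?_
    rw [h2, conj_w]

lemma sum_iff (h : Dt π e) (hj : om ^ (2 * (j : ℕ)) * XX π e omr = 1) {s F : ℂ} :
    HasSum (fun I : Ideal eis => th π e j I * (nm I : ℂ) ^ (-s)) F ↔
    HasSum (fun α : {α : Ei // (3 : Ei) ∣ α - 1} =>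
      toC α * chD π e α * ((nr α : ℤ) : ℂ) ^ (-s)) F := by
  have hinj : Function.Injective
      (fun α : {α : Ei // (3 : Ei) ∣ α - 1} => (sp (eq0 (α : Ei)) : Ideal eis)) := by
    intro α β hab
    apply Subtype.ext
    apply eq0.injective
    exact prim_unique (Pool.Agent.Y715.T.Ex.three_mem.2 α.2)
      (Pool.Agent.Y715.T.Ex.three_mem.2 β.2) hab
  rw [← hinj.hasSum_iff]
  · refine iff_of_eq ?_
    congr 1
    funext α
    have h2 : ((nm (sp (eq0 (α : Ei)) : Ideal eis) : ℝ) : ℂ) = ((nr (α : Ei) : ℤ) : ℂ) := by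
      have h3 := Pool.Agent.Y715.T.Rs.card_quo (α : Ei)
      have h4 : Nat.card (eis ⧸ (sp (eq0 (α : Ei)) : Ideal eis)) =
          Nat.card (Ei ⧸ Ideal.span {(α : Ei)}) := by
        rw [← Pool.Agent.Y715.T.Tf.up_sp, Pool.Agent.Y715.T.Tf.card_up]
      have h5 : nm (sp (eq0 (α : Ei)) : Ideal eis) =
          ((Nat.card (Ei ⧸ Ideal.span {(α : Ei)}) : ℕ) : ℝ) := by
        rw [← h4]
        rfl
      rw [h5]
      exact_mod_cast congrArg (fun n : ℤ => (n : ℂ)) h3
    show th π e j (sp (eq0 (α : Ei))) * ((nm (sp (eq0 (α : Ei)) : Ideal eis) : ℝ) : ℂ) ^ (-s) = _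
    rw [h2, th_sp h hj]
    unfold gg
    rw [ej_prim j (Pool.Agent.Y715.T.Ex.three_mem.2 α.2), one_mul, conj_X h,
      Pool.Agent.Y715.T.Rs.eq0_coe]
  · intro I hI
    have h1 : th π e j I = 0 := by
      obtain ⟨β, rfl⟩ : ∃ β : eis, I = sp β :=
        ⟨_, (Submodule.IsPrincipal.span_singleton_generator I).symm⟩
      rw [th_sp h hj, gg_zero_iff h]
      right
      intro h2
      rw [IsCoprime.mul_right_iff, mm_cop] at h2
      have h5 : IsCoprime (sp β) (sp (3 : eis)) := by
        rw [Ideal.isCoprime_span_singleton_iff]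
        exact h2.1
      obtain ⟨α, h3, h4⟩ := exists_prim h5
      apply hI
      refine ⟨⟨eq0.symm α, ?_⟩, ?_⟩
      · rw [← Pool.Agent.Y715.T.Ex.three_mem, RingEquiv.apply_symm_apply]
        exact h4
      · show (sp (eq0 (eq0.symm α)) : Ideal eis) = sp β
        rw [RingEquiv.apply_symm_apply, h3]
    rw [h1, zero_mul]

set_option maxHeartbeats 1600000 in
/-- **CT-AN1b.** -/
theorem an1b : S_AN1b := by
  intro J _ _ π e h
  obtain ⟨j, hj⟩ := ex_j h
  have hθ := hc_th h hj
  have hfin := Pool.Agent.Y715.T.LF.fin_quot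
  have hc0 := cP_ne h
  have hq0 : mm j * cP π ≠ 0 := mul_ne_zero (mm_ne j) hc0
  obtain ⟨F, g1, g2, g3⟩ := lim_L Pool.Agent.Y696.lbasic Pool.Agent.Y696.lfp Pool.Agent.Y696.lcnt
    Pool.Agent.Y696.ldec Pool.Agent.Y696.lafe qr hθ (sys_pid (hfin _ hq0))
  refine ⟨F, ⟨g1, fun s hs => (sum_iff h hj).1 (g2 s hs)⟩, ?_⟩
  intro _ L Ω hC
  have h3 := cop3 h
  have h3n := Pool.Agent.Y696.three_ne
  have : Finite (eis ⧸ sp (cP π)) := hfin _ hc0
  have : Fintype (eis ⧸ sp (cP π)) := Fintype.ofFinite _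
  have : Finite (eis ⧸ sp (3 * cP π)) := hfin _ (mul_ne_zero h3n hc0)
  have : Fintype (eis ⧸ sp (3 * cP π)) := Fintype.ofFinite _
  have hXo := Xo_X h
  have hΩ := hC.lat.ne
  -- the value of the sums
  have hec : ∀ i : Fin 3, ej i (cP π) = 1 := by
    intro i
    refine ej_prim i ?_
    unfold cP cc
    have key : ∀ S : Finset J, (∏ i ∈ S, eq0 (π i)) - 1 ∈ (sp 3 : Ideal eis) := by
      intro S
      induction S using Finset.induction_on with
      | empty =>
        rw [Finset.prod_empty, sub_self]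
        exact Submodule.zero_mem _
      | insert k S hk ih =>
        rw [Finset.prod_insert hk]
        have h4 := (sp 3 : Ideal eis).add_mem ((sp 3 : Ideal eis).mul_mem_left (eq0 (π k)) ih)
          (Pool.Agent.Y715.T.Ex.three_mem.2 (h.pq k).three)
        have e1 : eq0 (π k) * ∏ i ∈ S, eq0 (π i) - 1 =
            eq0 (π k) * (∏ i ∈ S, eq0 (π i) - 1) + (eq0 (π k) - 1) := by ring
        rw [e1]
        exact h4
    exact key _
  set A : Fin 3 → ℂ := fun i => ∑ x : eis ⧸ sp (cP π), XX π e x.out *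
    HH L Ω 3 (ej i) (Ω * x.out / cP π) with hA
  have hlim : ∀ i : Fin 3, Tendsto (fun δ : ℝ => SS (fun α : eis => ej i α * XX π e α) δ)
      (𝓝[>] 0) (𝓝 (Ω / (3 * cP π) * (1 * XX π e 3) * A i)) := by
    intro i
    have h4 := lim_SS hC.lat h3n hc0 h3 (eo_j i) hXo
    rw [hec i] at h4
    exact h4
  have hX3 : XX π e 3 ≠ 0 := (X_ne_cop h).2 h3
  have hcC : ((cP π : eis) : ℂ) ≠ 0 := coe_ne hc0
  have hA0 : ∀ i : Fin 3, i ≠ j → A i = 0 := by
    intro i hi
    have h4 := hlim i
    have h5 : Tendsto (fun δ : ℝ => SS (fun α : eis => ej i α * XX π e α) δ)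
        (𝓝[>] 0) (𝓝 0) := by
      refine tendsto_const_nhds.congr fun δ => (SS_zero h hj hi δ).symm
    have h6 := tendsto_nhds_unique h4 h5
    have h7 : Ω / (3 * cP π) * (1 * XX π e 3) ≠ 0 := by
      refine mul_ne_zero (div_ne_zero hΩ (mul_ne_zero (by norm_num) hcC)) ?_
      rw [one_mul]
      exact hX3
    exact (mul_eq_zero.1 h6).resolve_left h7
  have hAj : 6 * (starRingEnd ℂ) (F 1) = Ω / (3 * cP π) * (1 * XX π e 3) * A j := by
    refine tendsto_nhds_unique ?_ (hlim j)
    rw [Pool.Agent.Y715.T.LF.nu_eq] at g3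
    have e6 : (((6 : ℕ) : ℂ)) = 6 := by norm_num
    rw [e6] at g3
    refine g3.congr fun δ => ?_
    rw [Finset.sum_singleton]
    have t1 : th π e j ⊤ = 1 := by
      have e1 : (⊤ : Ideal eis) = sp 1 := by
        rw [eq_comm, Ideal.span_singleton_eq_top]
        exact isUnit_one
      rw [e1, hθ.princ 1 one_ne_zero (by rw [sub_self]; exact Submodule.zero_mem _)]
      simp
    have t2 : nm (⊤ : Ideal eis) = 1 :=
      ((Pool.Agent.Y696.lbasic eis om qr).2.2.2.2.2.2.1 ⊤).2 rfl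
    rw [t1, one_mul, t2, div_one]
    congr 1
    funext α
    unfold cb fp
    rw [if_pos Submodule.mem_top, th_sp h hj, pow_one]
    unfold gg
    by_cases h0 : α = 0
    · have h5 : ej j 0 = 0 := (eo_j j).zero (Submodule.zero_mem _)
      rw [h0, h5]
      simp
    · have h5 : (α : ℂ) ≠ 0 := coe_ne h0
      rw [mul_div_cancel_left₀ _ h5, Complex.conj_conj]
  -- the sums in terms of `SP`
  have hSP : ∀ i : Fin 3, SP L Ω 3 (fun x => ee psi x ^ (2 * (i : ℕ) + 1))
      (if i = 0 then kap L Ω else 0) (fun k => eq0 (π k)) (Xc π e) Finset.univ = A i := by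
    intro i
    unfold SP
    have e1 : cc (fun k => eq0 (π k)) Finset.univ = cP π := rfl
    rw [e1, Sm_eq]
    have h8 : ∀ x : eis ⧸ sp (cP π), XT (Xc π e) Finset.univ x.out *
        Ph L Ω 3 (fun x => ee psi x ^ (2 * (i : ℕ) + 1)) (if i = 0 then kap L Ω else 0)
          (cP π) x.out =
        XX π e x.out * HH L Ω 3 (ej i) (Ω * x.out / cP π) +
          XX π e x.out * (if i = 0 then kap L Ω else 0) := by
      intro x
      by_cases hx : x.out ∈ sp (cP π)
      · have h9 : XT (Xc π e) Finset.univ x.out = 0 := hXo.zero _ hx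
        have h9' : XX π e x.out = 0 := h9
        rw [h9, h9']
        ring
      · rw [Ph_of_notMem hx]
        show XX π e x.out * (HH L Ω 3 (ej i) (Ω * x.out / cP π) + _) = _
        ring
    rw [Finset.sum_congr rfl fun x _ => h8 x, Finset.sum_add_distrib, ← Finset.sum_mul, hXo.sum,
      zero_mul, add_zero]
  have hSPt : SPt L Ω π e Finset.univ = A j := by
    unfold SPt
    rw [Finset.sum_congr rfl fun i _ => hSP i]
    rw [Finset.sum_eq_single j]
    · intro i _ hi
      exact hA0 i hi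
    · intro h4
      exact absurd (Finset.mem_univ j) h4
  refine ⟨XX π e 3, 3, by norm_num, X_cube h ((X_ne_iff h).1 hX3), ?_⟩
  have hprod : ((cP π : eis) : ℂ) = ∏ k, toC (π k) := by
    unfold cP cc
    push_cast
    rfl
  rw [hSPt, ← hprod]
  have h9 : (starRingEnd ℂ) (F 1) = (6 : ℂ)⁻¹ * (6 * (starRingEnd ℂ) (F 1)) := by ring
  rw [h9, hAj]
  field_simp
  ring

end Pool.Agent.Y715.CT.AN1b
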