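import Pool.Agent.Y703.CT.AN1

/-!
# The Hecke characters attached to all products of cubic symbols
-/

set_option autoImplicit false
set_option linter.unusedSectionVars false

open scoped Classical

namespace Pool.Agent.Y715.CT.Hec

open Pool.Agent.Y692.QS (Ei w nr toC)
open Pool.Agent.Y703.CT
open Pool.Agent.W192.HK
open Pool.Agent.Y715.Idn Pool.Agent.Y696
open Pool.Agent.Y715.T.Rs (eq0)
open Pool.Agent.Y715.T.Lat (la la_sq ez)
open Pool.Agent.Y715.T.LF (rd rd_ez rd_eq_zero)
open Pool.Agent.Y703.CT.Ana (ej eo_j ej_u ej_ncop ej_prim)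

variable {J : Type} [Fintype J] {π : J → Ei} {e : J → ZMod 3}

/-! ### the modulus -/

lemma rd_la : rd la = 0 := by
  unfold la
  rw [rd_ez]
  decide

lemma rd_omr : rd omr = 1 := by
  rw [← Pool.Agent.Y715.T.Lat.ez_omr, rd_ez]
  decide

lemma la_ne : la ≠ 0 := by
  intro h
  have h1 := la_sq
  rw [h, mul_zero] at h1
  exact Pool.Agent.Y696.three_ne (neg_eq_zero.1 h1.symm)

lemma prime_la : Prime la := by
  refine ⟨la_ne, fun h => ?_, fun a b hab => ?_⟩
  · have h1 := h.map rd
    rw [rd_la] at h1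
    exact not_isUnit_zero h1
  · have h1 : rd a * rd b = 0 := by
      rw [← map_mul]
      obtain ⟨t, ht⟩ := hab
      rw [ht, map_mul, rd_la, zero_mul]
    have : Fact (Nat.Prime 3) := ⟨Nat.prime_three⟩
    rcases mul_eq_zero.1 h1 with h | h
    · left
      exact rd_eq_zero h
    · right
      exact rd_eq_zero h

lemma three_eq : (3 : eis) = -(la * la) := by rw [la_sq, neg_neg]

lemma cop_la {α : eis} : IsCoprime α la ↔ IsCoprime α 3 := by
  rw [three_eq, IsCoprime.neg_right_iff, IsCoprime.mul_right_iff, and_self]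

/-- the part of the modulus at three -/
noncomputable def mm (j : Fin 3) : eis := if j = 1 then la else 3

/-- the quotient by the prime -/
noncomputable def mq (j : Fin 3) : eis := if j = 1 then 1 else -la

lemma mm_eq (j : Fin 3) : mm j = la * mq j := by
  unfold mm mq
  by_cases h : j = 1
  · rw [if_pos h, if_pos h, mul_one]
  · rw [if_neg h, if_neg h, three_eq]
    ring

lemma mm_dvd (j : Fin 3) : mm j ∣ 3 := by
  unfold mm
  by_cases h : j = 1
  · rw [if_pos h, three_eq]
    exact ⟨-la, by ring⟩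
  · rw [if_neg h]

lemma mm_la {ρ : eis} (hρ : Prime ρ) {j : Fin 3} (h : ρ ∣ mm j) : ρ ∣ la := by
  have h1 : ρ ∣ la * la := by
    have h2 := h.trans (mm_dvd j)
    rw [three_eq] at h2
    exact (dvd_neg).1 h2
  rcases hρ.dvd_or_dvd h1 with h2 | h2
  · exact h2
  · exact h2

lemma mm_ne (j : Fin 3) : mm j ≠ 0 := by
  unfold mm
  by_cases h : j = 1
  · rw [if_pos h]
    exact la_ne
  · rw [if_neg h]
    exact Pool.Agent.Y696.three_ne

lemma mm_cop {j : Fin 3} {α : eis} : IsCoprime α (mm j) ↔ IsCoprime α 3 := by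
  unfold mm
  by_cases h : j = 1
  · rw [if_pos h, cop_la]
  · rw [if_neg h]

lemma u_cases {u : eis} (hu : IsUnit u) : (rd u = 1 ∧ (u : ℂ) ^ 3 = 1) ∨ rd u = -1 := by
  have h3 := om_cube
  rw [unit_list] at hu
  simp only [Set.mem_insert_iff, Set.mem_singleton_iff] at hu
  rcases hu with rfl | rfl | rfl | rfl | rfl | rfl
  · left
    exact ⟨map_one _, by push_cast; ring⟩
  · right
    rw [map_neg, map_one]
  · left
    exact ⟨rd_omr, by rw [omr_coe, h3]⟩
  · right
    rw [map_neg, rd_omr]
  · left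
    refine ⟨by rw [map_pow, rd_omr, one_pow], ?_⟩
    push_cast
    rw [omr_coe]
    linear_combination (om ^ 3 + 1) * h3
  · right
    rw [map_neg, map_pow, rd_omr, one_pow]

lemma ej_mm {j : Fin 3} {α : eis} (h : α - 1 ∈ (sp (mm j) : Ideal eis)) : ej j α = 1 := by
  by_cases hj : j = 1
  · subst hj
    have hm : mm 1 = la := if_pos rfl
    rw [hm] at h
    obtain ⟨t, ht⟩ := Ideal.mem_span_singleton'.1 h
    have hc : IsCoprime α 3 := by
      rw [← cop_la]
      exact ⟨1, -t, by linear_combination -ht⟩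
    obtain ⟨u, hu, hu3⟩ := cop_three hc
    rw [(eo_j 1).per _ _ hu3, ej_u 1 hu]
    have hr : rd α = 1 := by
      have h1 : α = t * la + 1 := by linear_combination -ht
      rw [h1, map_add, map_mul, rd_la, mul_zero, zero_add, map_one]
    have hr' : rd u = 1 := by
      obtain ⟨s, hs⟩ := Ideal.mem_span_singleton'.1 hu3
      have h1 : u = α - s * 3 := by linear_combination hs
      have h3 : (3 : ZMod 3) = 0 := by decide
      rw [h1, map_sub, map_mul, map_ofNat, h3, mul_zero, sub_zero, hr]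
    rcases u_cases hu with h1 | h1
    · exact h1.2
    · rw [hr'] at h1
      exact absurd h1 (by decide)
  · have hm : mm j = 3 := if_neg hj
    rw [hm] at h
    exact ej_prim j h

lemma om_ne_one : om ≠ 1 := by
  intro h
  have h1 := om_im
  rw [h] at h1
  simp at h1

lemma om2_ne_one : om ^ 2 ≠ 1 := by
  intro h
  apply om_ne_one
  have h3 := om_cube
  linear_combination h3 - om * h

lemma ex_u (j : Fin 3) : ∃ u : eis, IsUnit u ∧ u - 1 ∈ (sp (mq j) : Ideal eis) ∧
    (u : ℂ) ^ (2 * (j : ℕ) + 1) ≠ 1 := by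
  have hu : ∀ v ∈ ({1, -1, omr, -omr, omr ^ 2, -omr ^ 2} : Set eis), IsUnit v := fun v hv =>
    (unit_list v).2 hv
  by_cases hj : j = 1
  · subst hj
    refine ⟨-1, hu _ (by simp), ?_, ?_⟩
    · have : mq 1 = 1 := if_pos rfl
      rw [this, sp_one_eq]
      exact Submodule.mem_top
    · push_cast
      norm_num
  · refine ⟨omr, hu _ (by simp), ?_, ?_⟩
    · have : mq j = -la := if_neg hj
      rw [this, Ideal.mem_span_singleton']
      refine ⟨-(1 + omr), ?_⟩
      have h1 : la = 1 + 2 * omr := by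
        unfold la ez
        push_cast
        ring
      rw [h1]
      linear_combination (2 : eis) * omr_sq
    · rw [omr_coe]
      have hj' : (j : ℕ) = 0 ∨ (j : ℕ) = 2 := by
        have h1 := j.2
        have h2 : (j : ℕ) ≠ 1 := fun h => hj (Fin.ext h)
        omega
      rcases hj' with h | h
      · rw [h]
        intro h1
        apply om_ne_one
        linear_combination h1
      · rw [h]
        intro h1
        apply om2_ne_one
        have h3 := om_cube
        linear_combination h1 - om ^ 2 * h3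

/-! ### the product of the symbols -/

/-- the product of the primes -/
noncomputable def cP (π : J → Ei) : eis := cc (fun i => eq0 (π i)) Finset.univ

/-- the product of the symbols -/
noncomputable def XX (π : J → Ei) (e : J → ZMod 3) (x : eis) : ℂ := XT (Xc π e) Finset.univ x

section X

variable (h : Dt π e)

include h

lemma X_mul (x y : eis) : XX π e (x * y) = XX π e x * XX π e y := XT_mul (Xc_fm h) _ x y

lemma X_per {x y : eis} (hxy : x - y ∈ (sp (cP π) : Ideal eis)) : XX π e x = XX π e y :=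
  XT_per (Xc_fm h) (Finset.Subset.refl _) hxy

lemma w_ne : toC w ≠ 0 := by
  intro h0
  have h1 := Pool.Agent.Y715.T.Fin.toC_w_cube
  rw [h0] at h1
  norm_num at h1

lemma X_ne_iff {x : eis} : XX π e x ≠ 0 ↔ ∀ i, ¬ π i ∣ eq0.symm x := by
  unfold XX XT
  rw [Finset.prod_ne_zero_iff]
  constructor
  · intro h1 i hi
    exact h1 i (Finset.mem_univ i) (Xc_zero hi)
  · intro h1 i _
    rw [Xc_of (h1 i)]
    exact pow_ne_zero _ (w_ne h)

lemma X_cube {x : eis} (hx : ∀ i, ¬ π i ∣ eq0.symm x) : XX π e x ^ 3 = 1 := by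
  unfold XX XT
  rw [← Finset.prod_pow]
  refine Finset.prod_eq_one fun i _ => ?_
  rw [Xc_of (hx i), ← pow_mul, mul_comm, pow_mul, Pool.Agent.Y715.T.Fin.toC_w_cube, one_pow]

lemma nd_unit {u : eis} (hu : IsUnit u) (i : J) : ¬ π i ∣ eq0.symm u := by
  intro h1
  exact (h.pq i).prime.not_isUnit (isUnit_of_dvd_unit h1 (hu.map eq0.symm))

lemma X_one : XX π e 1 = 1 := by
  have h1 : XX π e (1 * 1) = XX π e 1 * XX π e 1 := X_mul h 1 1
  rw [mul_one] at h1
  have h2 : XX π e 1 ≠ 0 := (X_ne_iff h).2 fun i => nd_unit h isUnit_one i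
  exact (mul_left_cancel₀ h2 (by rw [mul_one]; exact h1)).symm

lemma X_neg_one : XX π e (-1) = 1 := by
  have h1 : XX π e (-1) ^ 3 = 1 := X_cube h fun i => nd_unit h isUnit_one.neg i
  have h2 : XX π e ((-1) * (-1)) = XX π e (-1) * XX π e (-1) := X_mul h _ _
  have h3 : ((-1 : eis) * (-1)) = 1 := by ring
  rw [h3, X_one h] at h2
  linear_combination h1 + XX π e (-1) * h2

lemma ex_j : ∃ j : Fin 3, om ^ (2 * (j : ℕ)) * XX π e omr = 1 := by
  have hu : IsUnit omr := (unit_list _).2 (by simp)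
  have h1 : XX π e omr ^ 3 = 1 := X_cube h fun i => nd_unit h hu i
  have h3 := om_cube
  have hs := om_sq
  set X := XX π e omr
  have h4 : (X - 1) * ((X - om) * (X - om ^ 2)) = 0 := by
    linear_combination h1 - (X - 1) * X * hs + (X - 1) * h3
  rcases mul_eq_zero.1 h4 with h5 | h5
  · refine ⟨0, ?_⟩
    rw [Fin.val_zero, mul_zero, pow_zero, one_mul]
    linear_combination h5
  · rcases mul_eq_zero.1 h5 with h6 | h6
    · refine ⟨1, ?_⟩
      rw [Fin.val_one, mul_one]
      linear_combination om ^ 2 * h6 + h3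
    · refine ⟨2, ?_⟩
      rw [Fin.val_two]
      linear_combination om ^ 4 * h6 + (om ^ 3 + 1) * h3

lemma unitG {j : Fin 3} (hj : om ^ (2 * (j : ℕ)) * XX π e omr = 1) {u : eis} (hu : IsUnit u) :
    (u : ℂ) ^ (2 * (j : ℕ)) * XX π e u = 1 := by
  have key : ∀ a b : eis, (a : ℂ) ^ (2 * (j : ℕ)) * XX π e a = 1 →
      (b : ℂ) ^ (2 * (j : ℕ)) * XX π e b = 1 →
      ((a * b : eis) : ℂ) ^ (2 * (j : ℕ)) * XX π e (a * b) = 1 := by
    intro a b ha hb
    rw [X_mul h]
    push_cast
    rw [mul_pow]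
    linear_combination ha * ((b : ℂ) ^ (2 * (j : ℕ)) * XX π e b) + hb
  have h1 : ((-1 : eis) : ℂ) ^ (2 * (j : ℕ)) * XX π e (-1) = 1 := by
    rw [X_neg_one h, mul_one, pow_mul]
    push_cast
    norm_num
  have h2 : ((omr : eis) : ℂ) ^ (2 * (j : ℕ)) * XX π e omr = 1 := by
    rw [omr_coe]
    exact hj
  rw [unit_list] at hu
  simp only [Set.mem_insert_iff, Set.mem_singleton_iff] at hu
  rcases hu with rfl | rfl | rfl | rfl | rfl | rfl
  · rw [X_one h]
    push_cast
    rw [one_pow, mul_one]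
  · exact h1
  · exact h2
  · have h3 := key _ _ h1 h2
    rwa [neg_one_mul] at h3
  · have h3 := key _ _ h2 h2
    rwa [← pow_two] at h3
  · have h3 := key _ _ h1 (key _ _ h2 h2)
    rwa [← pow_two, neg_one_mul] at h3

lemma cop_iff {x : eis} : IsCoprime x (cP π) ↔ ∀ i, ¬ π i ∣ eq0.symm x := by
  unfold cP cc
  rw [IsCoprime.prod_right_iff]
  constructor
  · intro h1 i h2
    have h3 := h1 i (Finset.mem_univ i)
    have h4 : IsCoprime (eq0.symm x) (π i) := by
      have := h3.map (eq0.symm : eis →+* Ei)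
      simpa using this
    exact (h.pq i).prime.not_isUnit (h4.isUnit_of_dvd' h2 dvd_rfl)
  · intro h1 i _
    have h2 : IsCoprime (π i) (eq0.symm x) :=
      ((h.pq i).prime.irreducible.coprime_iff_not_dvd).2 (h1 i)
    have := h2.symm.map (eq0 : Ei →+* eis)
    simpa using this

lemma X_ne_cop {x : eis} : XX π e x ≠ 0 ↔ IsCoprime x (cP π) := by
  rw [X_ne_iff h, cop_iff h]

lemma cP_ne : cP π ≠ 0 := (Xc_fm h).cc_ne _

lemma cop3 : IsCoprime (3 : eis) (cP π) := by
  refine Fm.cop_f (fun i => ?_) _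
  obtain ⟨t, ht⟩ := Ideal.mem_span_singleton'.1 (Pool.Agent.Y715.T.Ex.three_mem.2 (h.pq i).three)
  exact ⟨-t, 1, by linear_combination -ht⟩

end X

/-! ### the Hecke character -/

/-- the function on the elements -/
noncomputable def gg (π : J → Ei) (e : J → ZMod 3) (j : Fin 3) (α : eis) : ℂ :=
  (α : ℂ) * (starRingEnd ℂ) (ej j α * XX π e α)

/-- the Hecke character -/
noncomputable def th (π : J → Ei) (e : J → ZMod 3) (j : Fin 3) (I : Ideal eis) : ℂ :=
  gg π e j (Submodule.IsPrincipal.generator I)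

section T

variable (h : Dt π e) {j : Fin 3} (hj : om ^ (2 * (j : ℕ)) * XX π e omr = 1)

include h

lemma gg_mul (α β : eis) : gg π e j (α * β) = gg π e j α * gg π e j β := by
  unfold gg
  rw [X_mul h, (eo_j j).mul]
  push_cast
  simp only [map_mul]
  ring

include hj

lemma gg_unit {u : eis} (hu : IsUnit u) : gg π e j u = 1 := by
  unfold gg
  have h1 := unitG h hj hu
  have h2 : Complex.normSq (u : ℂ) = 1 := (isUnit_iff' u).1 hu
  have h3 : (u : ℂ) * (starRingEnd ℂ) (u : ℂ) = 1 := by
    rw [Complex.mul_conj, h2, Complex.ofReal_one]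
  rw [ej_u j hu, pow_succ]
  have h4 : (starRingEnd ℂ) ((u : ℂ) ^ (2 * (j : ℕ)) * XX π e u) = 1 := by rw [h1, map_one]
  rw [map_mul] at h4
  simp only [map_mul]
  linear_combination h3 * ((starRingEnd ℂ) ((u : ℂ) ^ (2 * (j : ℕ))) *
    (starRingEnd ℂ) (XX π e u)) + h4

lemma gg_assoc {α β : eis} (hab : Associated α β) : gg π e j α = gg π e j β := by
  obtain ⟨u, rfl⟩ := hab
  rw [gg_mul h, gg_unit h hj u.isUnit, mul_one]

lemma th_sp (α : eis) : th π e j (sp α) = gg π e j α := by
  refine gg_assoc h hj ?_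
  rw [← Ideal.span_singleton_eq_span_singleton]
  exact Ideal.span_singleton_generator _

omit hj in
lemma gg_zero_iff {α : eis} : gg π e j α = 0 ↔ (α = 0 ∨ ¬ IsCoprime α (mm j * cP π)) := by
  rw [IsCoprime.mul_right_iff, mm_cop, ← X_ne_cop h]
  unfold gg
  rw [mul_eq_zero, map_eq_zero, mul_eq_zero]
  have h1 : ej j α = 0 ↔ ¬ IsCoprime α 3 := by
    constructor
    · intro h1 h2
      obtain ⟨u, hu, hu3⟩ := cop_three h2
      rw [(eo_j j).per _ _ hu3, ej_u j hu] at h1
      have h3 : (u : ℂ) = 0 := by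
        by_contra h4
        exact pow_ne_zero _ h4 h1
      exact hu.ne_zero (coe_inj' h3)
    · exact ej_ncop j
  have h2 : (α : ℂ) = 0 ↔ α = 0 := by
    constructor
    · intro h3
      exact coe_inj' h3
    · rintro rfl
      rfl
  rw [h1, h2]
  tauto

lemma ex_div {q' : Ideal eis} (hq : sp (mm j * cP π) < q') :
    mq j * cP π ∈ q' ∨ ∃ i, mm j * cc (fun i => eq0 (π i)) (Finset.univ.erase i) ∈ q' := by
  obtain ⟨d, rfl⟩ : ∃ d : eis, q' = sp d :=
    ⟨_, (Submodule.IsPrincipal.span_singleton_generator q').symm⟩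
  obtain ⟨t, ht⟩ : d ∣ mm j * cP π := Ideal.span_singleton_le_span_singleton.1 hq.le
  have hne : mm j * cP π ≠ 0 := mul_ne_zero (mm_ne j) (cP_ne h)
  have ht0 : t ≠ 0 := by
    rintro rfl
    rw [mul_zero] at ht
    exact hne ht
  have hnu : ¬ IsUnit t := by
    intro hu
    obtain ⟨v, hv⟩ := hu.exists_right_inv
    have h2 : mm j * cP π ∣ d := ⟨v, by rw [ht, mul_assoc, hv, mul_one]⟩
    have := Ideal.span_singleton_le_span_singleton.2 h2
    exact absurd (le_antisymm hq.le this) hq.ne
  obtain ⟨ρ, hρ, s, hs⟩ := WfDvdMonoid.exists_irreducible_factor hnu ht0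
  have hρ' := hρ.prime
  have hd : ρ ∣ mm j * cP π := ⟨d * s, by rw [ht, hs]; ring⟩
  rcases hρ'.dvd_or_dvd hd with h1 | h1
  · left
    obtain ⟨u, hu⟩ := hρ'.associated_of_dvd prime_la (mm_la hρ' h1)
    have h3 : ρ * (u * (mq j * cP π)) = ρ * (d * s) := by
      have h5 : mm j * cP π = d * (ρ * s) := by rw [ht, hs]
      rw [mm_eq, ← hu] at h5
      linear_combination h5
    have h4 := mul_left_cancel₀ hρ'.ne_zero h3
    rw [Ideal.mem_span_singleton']
    refine ⟨s * (↑u⁻¹ : eis), ?_⟩
    have h5 : (↑u⁻¹ : eis) * u = 1 := u.inv_mul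
    linear_combination -(↑u⁻¹ : eis) * h4 + (mq j * cP π) * h5
  · right
    unfold cP cc at h1
    rw [hρ'.dvd_finsetProd_iff] at h1
    obtain ⟨i, -, hi⟩ := h1
    have hpi : Prime (eq0 (π i)) := (MulEquiv.prime_iff (eq0 : Ei ≃* eis)).2 (h.pq i).prime
    obtain ⟨u, hu⟩ := hρ'.associated_of_dvd hpi hi
    refine ⟨i, ?_⟩
    have hc : cP π = eq0 (π i) * cc (fun i => eq0 (π i)) (Finset.univ.erase i) := by
      unfold cP
      rw [← cc_insert (π := fun i => eq0 (π i)) (Finset.notMem_erase i Finset.univ),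
        Finset.insert_erase (Finset.mem_univ i)]
    have h3 : ρ * (u * (mm j * cc (fun i => eq0 (π i)) (Finset.univ.erase i))) =
        ρ * (d * s) := by
      have h5 : mm j * cP π = d * (ρ * s) := by rw [ht, hs]
      rw [hc, ← hu] at h5
      linear_combination h5
    have h4 := mul_left_cancel₀ hρ'.ne_zero h3
    rw [Ideal.mem_span_singleton']
    refine ⟨s * (↑u⁻¹ : eis), ?_⟩
    have h5 : (↑u⁻¹ : eis) * u = 1 := u.inv_mul
    linear_combination -(↑u⁻¹ : eis) * h4 +
      (mm j * cc (fun i => eq0 (π i)) (Finset.univ.erase i)) * h5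

/-- **The primitive Hecke character.** -/
theorem hc_th : HC 1 (sp (mm j * cP π)) (th π e j) := by
  refine ⟨?_, ?_, ?_, ?_, ?_⟩
  · rw [Ne, Ideal.span_singleton_eq_bot]
    exact mul_ne_zero (mm_ne j) (cP_ne h)
  · intro I K
    obtain ⟨α, rfl⟩ : ∃ α : eis, I = sp α :=
      ⟨_, (Submodule.IsPrincipal.span_singleton_generator I).symm⟩
    obtain ⟨β, rfl⟩ : ∃ β : eis, K = sp β :=
      ⟨_, (Submodule.IsPrincipal.span_singleton_generator K).symm⟩
    have e1 : sp α * sp β = sp (α * β) := Ideal.span_singleton_mul_span_singleton α β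
    rw [e1, th_sp h hj, th_sp h hj, th_sp h hj, gg_mul h]
  · intro I
    obtain ⟨α, rfl⟩ : ∃ α : eis, I = sp α :=
      ⟨_, (Submodule.IsPrincipal.span_singleton_generator I).symm⟩
    rw [th_sp h hj, gg_zero_iff h, Ideal.span_singleton_eq_bot,
      Ideal.isCoprime_span_singleton_iff]
  · intro α _ hα
    rw [th_sp h hj, pow_one]
    unfold gg
    rw [ej_mm (sp_mul_le' hα), X_per h (sp_mul_le hα), X_one h, mul_one, map_one, mul_one]
  · intro q' hq
    have h3c := cop3 h
    rcases ex_div h hj hq with h1 | ⟨i, h1⟩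
    · obtain ⟨u, hu, hu1, hu2⟩ := ex_u j
      obtain ⟨a, b, hab⟩ := h3c
      set α : eis := 1 + b * cP π * (u - 1) with hα
      have hα1 : α - 1 ∈ (sp (cP π) : Ideal eis) := by
        rw [Ideal.mem_span_singleton']
        exact ⟨b * (u - 1), by rw [hα]; ring⟩
      have hα3 : α - u ∈ (sp 3 : Ideal eis) := by
        rw [Ideal.mem_span_singleton']
        exact ⟨-(u - 1) * a, by rw [hα]; linear_combination -(u - 1) * hab⟩
      have hX : XX π e α = 1 := by rw [X_per h hα1, X_one h]
      have hcop : IsCoprime α 3 := cop_of_unit hu hα3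
      have hα0 : α ≠ 0 := by
        intro h0
        have h2 : gg π e j α = 0 := (gg_zero_iff h).2 (Or.inl h0)
        have h4 : IsCoprime α (mm j * cP π) := by
          rw [IsCoprime.mul_right_iff, mm_cop, ← X_ne_cop h, hX]
          exact ⟨hcop, one_ne_zero⟩
        rw [h0, isCoprime_zero_left] at h4
        have h5 := isUnit_of_mul_isUnit_left h4
        rw [mm_eq] at h5
        exact prime_la.not_isUnit (isUnit_of_mul_isUnit_left h5)
      refine ⟨α, hα0, ?_, ?_, ?_⟩
      · obtain ⟨t, ht⟩ := Ideal.mem_span_singleton'.1 hu1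
        have e1 : α - 1 = (b * t) * (mq j * cP π) := by
          rw [hα]
          linear_combination -(b * cP π) * ht
        rw [e1]
        exact q'.mul_mem_left _ h1
      · rw [Ideal.isCoprime_span_singleton_iff, IsCoprime.mul_right_iff, mm_cop, ← X_ne_cop h, hX]
        exact ⟨hcop, one_ne_zero⟩
      · rw [th_sp h hj, pow_one]
        unfold gg
        rw [hX, mul_one, (eo_j j).per _ _ hα3, ej_u j hu]
        intro h2
        have h4 : (α : ℂ) ≠ 0 := fun h5 => hα0 (coe_inj' h5)
        have h5 : (starRingEnd ℂ) ((u : ℂ) ^ (2 * (j : ℕ) + 1)) = 1 :=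
          mul_left_cancel₀ h4 (by rw [h2, mul_one])
        have h6 := congrArg (starRingEnd ℂ) h5
        rw [Complex.conj_conj, map_one] at h6
        exact hu2 h6
    · set P : J → eis := fun i => eq0 (π i) with hP
      set ci : eis := cc P (Finset.univ.erase i) with hci
      obtain ⟨g, hg0, hg⟩ := ex_ne (h.pq i)
      have hci3 : IsCoprime (3 * ci) (P i) := by
        rw [IsCoprime.mul_left_iff]
        constructor
        · have := cop3 h
          unfold cP cc at this
          rw [IsCoprime.prod_right_iff] at this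
          exact this i (Finset.mem_univ i)
        · exact ((Xc_fm h).cop_cc (Finset.notMem_erase i _)).symm
      obtain ⟨a, b, hab⟩ := hci3
      set α : eis := 1 + a * (3 * ci) * (eq0 g - 1) with hα
      have hα3 : α - 1 ∈ (sp 3 : Ideal eis) := by
        rw [Ideal.mem_span_singleton']
        exact ⟨a * ci * (eq0 g - 1), by rw [hα]; ring⟩
      have hαk : ∀ k, k ≠ i → α - 1 ∈ (sp (P k) : Ideal eis) := by
        intro k hk
        have h2 : α - 1 ∈ (sp ci : Ideal eis) := by
          rw [Ideal.mem_span_singleton']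
          exact ⟨a * 3 * (eq0 g - 1), by rw [hα]; ring⟩
        exact cc_mem (Finset.mem_erase.2 ⟨hk, Finset.mem_univ k⟩) h2
      have hαi : α - eq0 g ∈ (sp (P i) : Ideal eis) := by
        rw [Ideal.mem_span_singleton']
        exact ⟨-(eq0 g - 1) * b, by rw [hα]; linear_combination -(eq0 g - 1) * hab⟩
      have hX : XX π e α = Xc π e i (eq0 g) := by
        unfold XX XT
        rw [← Finset.mul_prod_erase Finset.univ _ (Finset.mem_univ i), Finset.prod_eq_one, mul_one]
        · exact (Xc_fm h).per i _ _ hαi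
        · intro k hk
          have h2 := (Xc_fm h).per k _ _ (hαk k (Finset.ne_of_mem_erase hk))
          rw [h2, Xc_of (nd_unit h isUnit_one k), map_one]
          have h4 := Pool.Agent.Y715.T.RecG.cs_one (h.pq k).prime (h.pq k).norm
          rw [h4, mul_zero, neg_zero, ZMod.val_zero, pow_zero]
      have hg1 : ¬ π i ∣ eq0.symm (eq0 g) := by rwa [RingEquiv.symm_apply_apply]
      have hXg : Xc π e i (eq0 g) ≠ 1 := by
        rw [Xc_of hg1, RingEquiv.symm_apply_apply]
        intro h3
        have h4 : toC w ^ (-(e i * Pool.Agent.Y715.T.Rec.cs (π i) g)).val = toC w ^ 0 := by rw [h3, pow_zero]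
        have h5 := Pool.Agent.Y715.T.Fin.w_pow_mod h4
        rw [ZMod.natCast_zmod_val, Nat.cast_zero, neg_eq_zero] at h5
        exact (mul_ne_zero (h.e0 i) hg) h5
      have hX0 : XX π e α ≠ 0 := by
        rw [hX, Xc_of hg1]
        exact pow_ne_zero _ (w_ne h)
      have hcop : IsCoprime α 3 := cop_of_unit isUnit_one hα3
      have hα0 : α ≠ 0 := prim_ne hα3
      refine ⟨α, hα0, ?_, ?_, ?_⟩
      · obtain ⟨t, ht⟩ := mm_dvd j
        have e1 : α - 1 = (a * t * (eq0 g - 1)) * (mm j * ci) := by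
          rw [hα]
          linear_combination (a * ci * (eq0 g - 1)) * ht
        rw [e1]
        exact q'.mul_mem_left _ h1
      · rw [Ideal.isCoprime_span_singleton_iff, IsCoprime.mul_right_iff, mm_cop, ← X_ne_cop h]
        exact ⟨hcop, hX0⟩
      · rw [th_sp h hj, pow_one]
        unfold gg
        rw [hX, ej_prim j hα3, one_mul]
        intro h2
        have h4 : (α : ℂ) ≠ 0 := fun h5 => hα0 (coe_inj' h5)
        have h5 : (starRingEnd ℂ) (Xc π e i (eq0 g)) = 1 :=
          mul_left_cancel₀ h4 (by rw [h2, mul_one])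
        have h6 := congrArg (starRingEnd ℂ) h5
        rw [Complex.conj_conj, map_one] at h6
        exact hXg h6

end T

end Pool.Agent.Y715.CT.Hec
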